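import Pool.Agent.Y504.CO.DicF
import Pool.Agent.Y318.MN.Attr
import Pool.Agent.TH80.OMS.Cycle

/-!
# Finitely many attractors from a finite nonwandering set
-/

set_option autoImplicit false
set_option linter.unusedSectionVars false

open scoped Manifold ContDiff Topology
open Filter Set Metric MeasureTheory

universe u

namespace Pool.Agent.Q189.FL

open Pool.Agent.H718R2.G Pool.Agent.TH80.OMS Pool.Agent.Y504.CO
open Pool.Agent.H728R2.FA (omegaLim FiniteAttractors)

section top

/-- the orbit -/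
def orb {N : Type u} (g : N → N) (p : N) : Set N := range fun j : ℕ => g^[j] p

variable {N : Type u} [TopologicalSpace N] [T2Space N] [CompactSpace N]

theorem orb_eq_of_mem {g : N → N} {p q : N} (hp : p ∈ Per g) (hq : q ∈ orb g p) : orb g p = orb g q := by
  obtain ⟨a, rfl⟩ := hq
  exact orbit_eq hp a

theorem orb_self (g : N → N) (p : N) : p ∈ orb g p := ⟨0, rfl⟩

theorem orb_per {g : N → N} {p q : N} (hp : p ∈ Per g) (hq : q ∈ orb g p) : q ∈ Per g := by
  obtain ⟨a, rfl⟩ := hq
  exact per_orbit hp a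

theorem orb_finite {g : N → N} {p : N} (hp : p ∈ Per g) : (orb g p).Finite := by
  obtain ⟨m, hm, hp⟩ := hp
  refine ((Finset.range m).finite_toSet.image fun j => g^[j] p).subset ?_
  rintro _ ⟨j, rfl⟩
  refine ⟨j % m, by simpa using Nat.mod_lt j hm, ?_⟩
  exact (Function.IsPeriodicPt.iterate_mod_apply hp j)

theorem orb_image {g : N → N} {p : N} (hp : p ∈ Per g) : g '' orb g p = orb g p := by
  have hc : ∀ j : ℕ, g^[j] (g p) = g (g^[j] p) := fun j => by
    rw [← Function.iterate_succ_apply, Function.iterate_succ_apply']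
  have h1 : g '' orb g p = orb g (g^[1] p) := by
    ext y
    constructor
    · rintro ⟨_, ⟨j, rfl⟩, rfl⟩
      exact ⟨j, hc j⟩
    · rintro ⟨j, rfl⟩
      exact ⟨g^[j] p, ⟨j, rfl⟩, (hc j).symm⟩
  rw [h1]
  exact (orbit_eq hp 1).symm

/-- A homeomorphism with a finite nonwandering set, which consists of periodic points, has finitely many
attractors for every measure, and every `ω`-limit set is contained in a periodic orbit. -/
theorem finite_attractors [TopologicalSpace.MetrizableSpace N] (g : N ≃ₜ N)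
    (hfin : (Omega g).Finite) (hper : Omega g ⊆ Per g) :
    (∀ p, ∃ q ∈ Omega g, omegaLim g p ⊆ orb g q) ∧
      ∀ (_ : MeasurableSpace N) (μ : Measure N), FiniteAttractors μ g := by
  classical
  have hT : ((fun p => orb g p) '' Omega g).Finite := hfin.image _
  have : Finite ((fun p => orb g p) '' Omega g) := hT
  obtain ⟨m, ⟨e⟩⟩ := Finite.exists_equiv_fin ((fun p => orb g p) '' Omega g)
  let M : Fin m → Set N := fun i => (e.symm i).1
  have hM : ∀ i, ∃ p ∈ Omega g, M i = orb g p := by
    intro i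
    obtain ⟨p, hp, h⟩ := (e.symm i).2
    exact ⟨p, hp, h.symm⟩
  have hcl : ∀ i, IsClosed (M i) := by
    intro i
    obtain ⟨p, hp, h⟩ := hM i
    rw [h]
    exact (orb_finite (hper hp)).isClosed
  have hinv : ∀ i, g '' M i = M i := by
    intro i
    obtain ⟨p, hp, h⟩ := hM i
    rw [h]
    exact orb_image (hper hp)
  have hdis : ∀ i j, i ≠ j → Disjoint (M i) (M j) := by
    intro i j hij
    rw [Set.disjoint_left]
    intro x hx hx'
    obtain ⟨p, hp, h⟩ := hM i
    obtain ⟨q, hq, h'⟩ := hM j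
    rw [h] at hx
    rw [h'] at hx'
    have h1 : M i = M j := by
      rw [h, h', orb_eq_of_mem (hper hp) hx, orb_eq_of_mem (hper hq) hx']
    exact hij (e.symm.injective (Subtype.ext h1))
  have hcov : ∀ p, omegaLim g p ⊆ ⋃ i, M i := by
    intro p y hy
    have hyΩ := Pool.Agent.Y318.MN.omegaLim_sub_omega g p hy
    refine mem_iUnion.2 ⟨e ⟨orb g y, y, hyΩ, rfl⟩, ?_⟩
    show y ∈ (e.symm (e ⟨orb g y, y, hyΩ, rfl⟩)).1
    rw [e.symm_apply_apply]
    exact orb_self g y
  have hone : ∀ p, ∃ i, omegaLim g p ⊆ M i := fun p =>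
    Pool.Agent.Y318.MN.cover_of_metric g M hcl hinv hdis hcov p
  refine ⟨fun p => ?_, fun _ μ => ?_⟩
  · obtain ⟨i, hi⟩ := hone p
    obtain ⟨q, hq, h⟩ := hM i
    exact ⟨q, hq, by rw [← h]; exact hi⟩
  · refine Pool.Agent.Y318.MN.attr_of_metric μ g M hinv (fun i => ?_) hone
    obtain ⟨p, hp, h⟩ := hM i
    refine ⟨p, by rw [h]; exact orb_self g p, ?_⟩
    rw [h]
    exact subset_closure

end top

variable {n : ℕ} {N : Type u} [TopologicalSpace N] [T2Space N] [CompactSpace N]
  [ChartedSpace (V n) N] [IsManifold (𝓡 n) ∞ N]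

theorem finite_attractors_of {r : ℕ∞} (f : DiffM n N r)
    (h : FiniteNoCycle f ∧ ∀ p ∈ Omega f, IsHyperbolicPer n f p) :
    (∀ p, ∃ q ∈ Omega f, omegaLim f p ⊆ orb f q) ∧
      ∀ (_ : MeasurableSpace N) (μ : Measure N), FiniteAttractors μ f := by
  have hmet := exists_metric n N
  exact finite_attractors f.toHomeomorph h.1.1 fun p hp => (h.2 p hp).1

end Pool.Agent.Q189.FL
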