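import Pool.Agent.Y504.CO.Gen

/-!
# `Ω`-stable diffeomorphisms and flows
-/

set_option autoImplicit false
set_option linter.unusedSectionVars false

open scoped Manifold ContDiff Topology
open Filter Set Metric

universe u

namespace Pool.Agent.Q189.FL

open Pool.Agent.H718R2.G Pool.Agent.TH80.OMS Pool.Agent.Y504.CO

section top

variable {N : Type u} [TopologicalSpace N]

theorem conj_trans {F G H : N → N} (hF : Continuous F) (h1 : OmegaConj F G) (h2 : OmegaConj F H) :
    OmegaConj G H := by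
  obtain ⟨h, hh⟩ := h1
  obtain ⟨k, hk⟩ := h2
  refine ⟨h.symm.trans k, fun x y hxy => ?_⟩
  have e := conj_symm hF h hh x y hxy
  exact hk _ _ e

/-- a continuous curve with finitely many values is constant -/
theorem const_of_finite [T2Space N] (c : ℝ → N) (hc : Continuous c) (S : Set N) (hS : S.Finite)
    (h : ∀ t, c t ∈ S) (s t : ℝ) : c s = c t := by
  have h1 : IsPreconnected (range c) := isPreconnected_range hc
  have h2 : (range c).Finite := hS.subset (by rintro _ ⟨t, rfl⟩; exact h t)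
  by_contra hne
  exact h1.infinite_of_nontrivial ⟨c s, ⟨s, rfl⟩, c t, ⟨t, rfl⟩, hne⟩ h2

end top

variable {n : ℕ} {N : Type u} [TopologicalSpace N] [T2Space N] [CompactSpace N]
  [ChartedSpace (V n) N] [IsManifold (𝓡 n) ∞ N]

/-- A flow by `C^r` diffeomorphisms: a one-parameter group, continuous in the parameter, with
`Φ s → Φ 1` in the `C^r` topology for `s → 1`. -/
structure IsFlow (n : ℕ) (N : Type u) [TopologicalSpace N] [ChartedSpace (V n) N] (r : ℕ∞)
    (Φ : ℝ → DiffM n N r) : Prop where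
  add : ∀ s t x, Φ (s + t) x = Φ s (Φ t x)
  cont : ∀ x, Continuous fun t => Φ t x
  tend : ∀ U : Set (DiffM n N r), IsOpen[strongTop n N r] U → Φ 1 ∈ U → ∀ᶠ s in 𝓝 (1 : ℝ), Φ s ∈ U

/-- The recurrent points of the flow: every neighbourhood of `x` contains some `Φ t x`, `t ≥ 1`. -/
def RecF {r : ℕ∞} (Φ : ℝ → DiffM n N r) : Set N :=
  {x | ∀ W ∈ 𝓝 x, ∃ t : ℝ, 1 ≤ t ∧ Φ t x ∈ W}

/-- The points on closed orbits of the flow, and the rest points. -/
def PerF {r : ℕ∞} (Φ : ℝ → DiffM n N r) : Set N := {x | ∃ t : ℝ, 0 < t ∧ Φ t x = x}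

/-- The rest points of the flow. -/
def Rest {r : ℕ∞} (Φ : ℝ → DiffM n N r) : Set N := {x | ∀ t : ℝ, Φ t x = x}

variable {r : ℕ∞} {Φ : ℝ → DiffM n N r}

theorem IsFlow.zero (h : IsFlow n N r Φ) (x : N) : Φ 0 x = x := by
  have h1 := h.add 0 0 x
  rw [add_zero] at h1
  exact (EquivLike.injective (Φ 0) h1).symm

theorem IsFlow.iter (h : IsFlow n N r Φ) (s : ℝ) (k : ℕ) (x : N) : (Φ s)^[k] x = Φ (k * s) x := by
  induction k with
  | zero => simp [h.zero]
  | succ k ih =>
    rw [Function.iterate_succ_apply', ih, ← h.add]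
    congr 2
    push_cast
    ring

theorem IsFlow.comm (h : IsFlow n N r Φ) (s t : ℝ) (x : N) : Φ s (Φ t x) = Φ t (Φ s x) := by
  rw [← h.add, ← h.add, add_comm]

theorem IsFlow.mul_nat (h : IsFlow n N r Φ) {T : ℝ} {x : N} (hx : Φ T x = x) (k : ℕ) :
    Φ (k * T) x = x := by
  rw [← h.iter]
  exact Function.iterate_fixed hx k

/-- the times `T b / a` with integers `a`, `b` accumulate at one -/
theorem exists_ratio {T : ℝ} (hT : 0 < T) {A : Set ℝ} (hA : ∀ᶠ s in 𝓝 (1 : ℝ), s ∈ A) :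
    ∃ (s : ℝ) (a b : ℕ), s ∈ A ∧ 1 ≤ a ∧ (a : ℝ) * s = b * T := by
  have h1 : Tendsto (fun a : ℕ => (⌊(a : ℝ) / T⌋₊ : ℝ) / ((a : ℝ) / T)) atTop (𝓝 1) :=
    (tendsto_nat_floor_div_atTop (R := ℝ)).comp
      ((tendsto_natCast_atTop_atTop (R := ℝ)).atTop_div_const hT)
  obtain ⟨a, ha, ha1⟩ := ((h1.eventually hA).and (eventually_ge_atTop 1)).exists
  refine ⟨_, a, ⌊(a : ℝ) / T⌋₊, ha, ha1, ?_⟩
  have ha0 : (a : ℝ) ≠ 0 := by
    have : a ≠ 0 := by omega
    exact_mod_cast this
  field_simp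

/-- **No closed orbits.** -/
theorem per_rest (hr : 1 ≤ r) (h : IsFlow n N r Φ) (hF : OmegaStable n N r (Φ 1)) :
    PerF Φ ⊆ Rest Φ := by
  rintro x ⟨T, hT, hx⟩
  obtain ⟨U, hU, hFU, hfin⟩ := finite_per hr hF
  obtain ⟨s, a, b, hs, ha, hab⟩ := exists_ratio hT (A := {s | Φ s ∈ U}) (h.tend U hU hFU)
  have hper : ∀ t : ℝ, Φ t x ∈ {y | (Φ s)^[a] y = y} := by
    intro t
    show (Φ s)^[a] (Φ t x) = Φ t x
    rw [h.iter, h.comm, hab, h.mul_nat hx]
  intro t
  have h1 := const_of_finite (fun t => Φ t x) (h.cont x) _ (hfin (Φ s) hs a ha) hper t 0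
  simp only [h.zero] at h1
  exact h1

theorem per_sub (h : IsFlow n N r Φ) : Per (Φ 1) ⊆ PerF Φ := by
  rintro x ⟨m, hm, hx⟩
  refine ⟨m, by exact_mod_cast hm, ?_⟩
  rw [h.iter, mul_one] at hx
  exact hx

theorem rest_sub : Rest Φ ⊆ {x | Φ 1 x = x} := fun _ hx => hx 1

theorem fix_sub : {x | Φ 1 x = x} ⊆ Per (Φ 1) := fun _ hx => ⟨1, le_rfl, hx⟩

/-- the periodic points of an `Ω`-stable time map -/
theorem per_eq (hr : 1 ≤ r) (h : IsFlow n N r Φ) (hF : OmegaStable n N r (Φ 1)) :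
    Per (Φ 1) = Rest Φ ∧ PerF Φ = Rest Φ ∧ (Rest Φ).Finite := by
  have h1 := per_rest hr h hF
  refine ⟨Subset.antisymm ((per_sub h).trans h1) (rest_sub.trans fix_sub),
    Subset.antisymm h1 fun x hx => ⟨1, one_pos, hx 1⟩, ?_⟩
  obtain ⟨U, hU, hFU, hfin⟩ := finite_per hr hF
  refine (hfin (Φ 1) hFU 1 le_rfl).subset fun x hx => ?_
  show (Φ 1)^[1] x = x
  exact hx 1

theorem rec_sub (h : IsFlow n N r Φ) : Rec (Φ 1) ⊆ RecF Φ := by
  intro x hx W hW
  obtain ⟨k, hk, hkW⟩ := hx W hW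
  refine ⟨k, by exact_mod_cast hk, ?_⟩
  rw [h.iter, mul_one] at hkW
  exact hkW

theorem recF_inv (h : IsFlow n N r Φ) {x : N} (hx : x ∈ RecF Φ) (s : ℝ) : Φ s x ∈ RecF Φ := by
  intro W hW
  obtain ⟨t, ht, htW⟩ := hx (Φ s ⁻¹' W) ((Φ s).continuous.continuousAt.preimage_mem_nhds hW)
  exact ⟨t, ht, by rw [h.comm]; exact htW⟩

theorem perF_inv (h : IsFlow n N r Φ) {x : N} (s : ℝ) (hx : Φ s x ∈ PerF Φ) : x ∈ PerF Φ := by
  obtain ⟨t, ht, htx⟩ := hx
  refine ⟨t, ht, ?_⟩
  rw [h.comm] at htx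
  exact EquivLike.injective (Φ s) htx

/-- if at most countably many recurrent points of the flow are not periodic, then all are -/
theorem recF_perF (h : IsFlow n N r Φ) (hc : (RecF Φ \ PerF Φ).Countable) : RecF Φ ⊆ PerF Φ := by
  intro x hx
  by_contra hxp
  have hinj : Function.Injective fun s : ℝ => Φ s x := by
    intro s t hst
    by_contra hne
    refine hxp ?_
    rcases lt_or_gt_of_ne hne with hlt | hlt
    · refine ⟨t - s, by linarith, ?_⟩
      have h1 : Φ s (Φ (t - s) x) = Φ s x := by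
        rw [← h.add]
        have : s + (t - s) = t := by ring
        rw [this]
        exact hst.symm
      exact EquivLike.injective (Φ s) h1
    · refine ⟨s - t, by linarith, ?_⟩
      have h1 : Φ t (Φ (s - t) x) = Φ t x := by
        rw [← h.add]
        have : t + (s - t) = s := by ring
        rw [this]
        exact hst
      exact EquivLike.injective (Φ t) h1
  have hsub : range (fun s : ℝ => Φ s x) ⊆ RecF Φ \ PerF Φ := by
    rintro _ ⟨s, rfl⟩
    exact ⟨recF_inv h hx s, fun hs => hxp (perF_inv h s hs)⟩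
  have h2 : (univ : Set ℝ).Countable := by
    have h3 := hc.mono hsub
    rw [← image_univ] at h3
    exact countable_of_injective_of_countable_image (hinj.injOn) h3
  exact Cardinal.not_countable_real h2

/-- Ω-stability of the maps near an `Ω`-stable map -/
theorem stable_near {F : DiffM n N r} (hF : OmegaStable n N r F) :
    ∃ U : Set (DiffM n N r), IsOpen[strongTop n N r] U ∧ F ∈ U ∧ ∀ G ∈ U, OmegaStable n N r G ∧
      OmegaConj F G := by
  obtain ⟨U, hU, hFU, h⟩ := hF
  exact ⟨U, hU, hFU, fun G hG => ⟨⟨U, hU, hG, fun H hH => conj_trans F.continuous (h G hG) (h H hH)⟩,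
    h G hG⟩⟩

theorem rec_omega {F : N → N} : Rec F ⊆ Omega F := by
  intro x hx W hW hxW
  obtain ⟨k, hk, hkW⟩ := hx W (hW.mem_nhds hxW)
  exact ⟨k, hk, x, hxW, hkW⟩

/-- a map `Ω`-conjugate to a map with finite nonwandering set -/
theorem stable_of_finite (hr : 1 ≤ r) {F : DiffM n N r} (hF : OmegaStable n N r F)
    {G : DiffM n N r} (hc : OmegaConj F G) (hG : (Omega G).Finite) :
    FiniteNoCycle F ∧ ∀ p ∈ Omega F, IsHyperbolicPer n F p := by
  obtain ⟨h, -⟩ := hc
  refine Gen.stable hr hF ?_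
  have h1 : (Omega F).Finite := by
    have : Finite (Omega G) := hG
    have : Finite (Omega F) := Finite.of_equiv _ h.toEquiv.symm
    exact toFinite _
  exact (h1.subset rec_omega).countable.mono sdiff_subset

/-- **Limits of time maps of flows.** -/
theorem limit_main (hr : 1 ≤ r) {F : DiffM n N r} (hF : OmegaStable n N r F)
    (hlim : ∀ U : Set (DiffM n N r), IsOpen[strongTop n N r] U → F ∈ U →
      ∃ Φ : ℝ → DiffM n N r, IsFlow n N r Φ ∧ (RecF Φ \ PerF Φ).Countable ∧ Φ 1 ∈ U) :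
    FiniteNoCycle F ∧ ∀ p ∈ Omega F, IsHyperbolicPer n F p := by
  obtain ⟨U, hU, hFU, h⟩ := stable_near hF
  obtain ⟨Φ, hΦ, hc, hΦU⟩ := hlim U hU hFU
  obtain ⟨hs, hconj⟩ := h _ hΦU
  have h1 : Rec (Φ 1) ⊆ Per (Φ 1) := by
    rw [(per_eq hr hΦ hs).1, ← (per_eq hr hΦ hs).2.1]
    exact (rec_sub hΦ).trans (recF_perF hΦ hc)
  have h2 := Gen.stable hr hs (by rw [sdiff_eq_empty.2 h1]; exact countable_empty)
  exact stable_of_finite hr hF hconj h2.1.1

/-- **Recurrence on homogeneous periodic submanifolds.** -/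
theorem homogeneous_main (hr : 1 ≤ r) {F : DiffM n N r} (hF : OmegaStable n N r F)
    (hlim : ∀ U : Set (DiffM n N r), IsOpen[strongTop n N r] U → F ∈ U →
      ∃ G ∈ U, (Rec G \ (Per G ∪ {y | IsHomPerInf n N G y})).Countable) :
    FiniteNoCycle F ∧ ∀ p ∈ Omega F, IsHyperbolicPer n F p := by
  obtain ⟨U, hU, hFU, h⟩ := stable_near hF
  obtain ⟨U', hU', hFU', h'⟩ := no_homPer hr hF
  let _ : TopologicalSpace (DiffM n N r) := strongTop n N r
  obtain ⟨G, hG, hc⟩ := hlim (U ∩ U') (IsOpen.inter hU hU') ⟨hFU, hFU'⟩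
  obtain ⟨hs, hconj⟩ := h G hG.1
  have h1 : (Rec G \ Per G).Countable := by
    refine hc.mono ?_
    rintro x ⟨hx, hxp⟩
    refine ⟨hx, ?_⟩
    rintro (h2 | h2)
    · exact hxp h2
    · exact h' G hG.2 x h2
  exact stable_of_finite hr hF hconj (Gen.stable hr hs h1).1.1

/-- relatively periodic points are periodic or lie on homogeneous periodic submanifolds -/
theorem rel_sub {G : Type} [Group G] [TopologicalSpace G] [CompactSpace G] {q : ℕ}
    {ι : G →* Matrix (Fin q) (Fin q) ℂ} {act : G → N → N}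
    (hact : Pool.Agent.TH80.CLX.IsLieAction n N ι univ act)
    (F : N → N) (hF : ∀ g y, F (act g y) = act g (F y)) :
    RelPer F act ⊆ Per F ∪ {y | IsHomPerInf n N F y} := by
  rintro y ⟨m, hm, g, hg⟩
  by_cases hinf : (range fun g => act g y).Infinite
  · exact Or.inr (homPerInf_of_commute hact F hF y ⟨m, hm, g, hg⟩ hinf)
  · left
    rw [not_infinite] at hinf
    have hpow : ∀ j : ℕ, F^[m * j] y = act (g ^ j) y := by
      intro j
      induction j with
      | zero => simp [hact.one y (mem_univ _)]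
      | succ j ih =>
        have hit : ∀ (i : ℕ) (a : G) (z : N), F^[i] (act a z) = act a (F^[i] z) := by
          intro i a z
          induction i with
          | zero => rfl
          | succ i ih => rw [Function.iterate_succ_apply', ih, hF, Function.iterate_succ_apply' F]
        rw [Nat.mul_succ, Nat.add_comm, Function.iterate_add_apply, ih, hit, hg,
          ← hact.mul _ _ _ (mem_univ _), ← pow_succ]
    have : Finite (range fun g => act g y) := hinf
    obtain ⟨i, j, hij, he⟩ := Finite.exists_ne_map_eq_of_infinite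
      (fun j : ℕ => (⟨act (g ^ j) y, ⟨g ^ j, rfl⟩⟩ : range fun g => act g y))
    have key : ∀ i j : ℕ, i < j → act (g ^ i) y = act (g ^ j) y → y ∈ Per F := by
      intro i j hlt h
      refine ⟨m * (j - i), Nat.mul_pos hm (by omega), ?_⟩
      rw [hpow]
      have h1 : act (g ^ i)⁻¹ (act (g ^ i) y) = act (g ^ i)⁻¹ (act (g ^ j) y) := by rw [h]
      rw [← hact.mul _ _ _ (mem_univ _), ← hact.mul _ _ _ (mem_univ _), inv_mul_cancel,
        hact.one _ (mem_univ _)] at h1
      have h2 : (g ^ i)⁻¹ * g ^ j = g ^ (j - i) := by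
        rw [inv_mul_eq_iff_eq_mul, ← pow_add]
        congr 1
        omega
      rw [h2] at h1
      exact h1.symm
    have he' : act (g ^ i) y = act (g ^ j) y := congrArg Subtype.val he
    rcases lt_or_gt_of_ne hij with h | h
    · exact key i j h he'
    · exact key j i h he'.symm

end Pool.Agent.Q189.FL
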